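import Mathlib

/-!
# A Hadamard matrix of order 28 with two circulant cores which is not cocyclic

For `ℓ = 13` there are circulant sign matrices `A`, `B` for which the matrix `H(A, B)` of the
two-circulant-core construction is a Hadamard matrix of order 28 that is not equivalent to any cocyclic
matrix.

For a row `i` count the triples `(j, k, l)` of rows with `|∑_c h_ic h_jc h_kc h_lc| = 20`.  This number
is invariant under equivalence, and for a cocyclic matrix it is the same for all rows (right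
translations of the group).  In the example it is 78 for the first and 54 for the third row.
-/

namespace Pool.Agent.Results.MP_e1608d_co.NotCocyclic28

open Matrix Finset

/-- `H` is a Hadamard matrix with rows and columns indexed by the finite set `ι`. -/
def IsHadamard {ι : Type} [Fintype ι] [DecidableEq ι] (H : Matrix ι ι ℤ) : Prop :=
  (∀ i j, H i j = 1 ∨ H i j = -1) ∧ H * Hᵀ = (Fintype.card ι : ℤ) • (1 : Matrix ι ι ℤ)

/-- `H` and `K` are equivalent: `H` arises from `K` by permuting (and relabelling) rows and columns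
and by multiplying rows and columns by `-1`. -/
def Equivalent {ι κ : Type} (H : Matrix ι ι ℤ) (K : Matrix κ κ ℤ) : Prop :=
  ∃ (σ τ : ι ≃ κ) (r c : ι → ℤˣ), ∀ i j, H i j = (r i : ℤ) * (c j : ℤ) * K (σ i) (τ j)

/-- `ψ` is a 2-cocycle of the group `G` with values in `{1, -1}`. -/
def IsCocycle {G : Type} [Group G] (ψ : G → G → ℤˣ) : Prop :=
  ∀ g h k, ψ g h * ψ (g * h) k = ψ h k * ψ g (h * k)

/-- The matrix `M_ψ = [ψ(g, h)]`. -/
def cocMatrix {G : Type} (ψ : G → G → ℤˣ) : Matrix G G ℤ := fun g h => ((ψ g h : ℤˣ) : ℤ)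

/-- `H` is cocyclic: it is equivalent to `M_ψ = [ψ(g, h)]` for a 2-cocycle `ψ` of some finite
group `G`. -/
def IsCocyclic {ι : Type} (H : Matrix ι ι ℤ) : Prop :=
  ∃ (G : Type) (_ : Group G) (_ : Finite G) (ψ : G → G → ℤˣ),
    IsCocycle ψ ∧ Equivalent H (cocMatrix ψ)

/-- `A` is circulant: every row is the preceding row shifted cyclically one place to the right. -/
def IsCirculant {ℓ : ℕ} (A : Matrix (ZMod ℓ) (ZMod ℓ) ℤ) : Prop :=
  ∀ i j, A (i + 1) (j + 1) = A i j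

/-- `(A, B)` is a pair for the two-circulant-core construction: `ℓ` is odd, `A` and `B` are circulant
sign matrices of order `ℓ` and `A Aᵀ + B Bᵀ = 2 (ℓ + 1) I - 2 J`. -/
structure IsPair (ℓ : ℕ) [NeZero ℓ] (A B : Matrix (ZMod ℓ) (ZMod ℓ) ℤ) : Prop where
  odd : Odd ℓ
  signA : ∀ i j, A i j = 1 ∨ A i j = -1
  signB : ∀ i j, B i j = 1 ∨ B i j = -1
  circA : IsCirculant A
  circB : IsCirculant B
  sum : A * Aᵀ + B * Bᵀ = (2 * ((ℓ : ℤ) + 1)) • (1 : Matrix (ZMod ℓ) (ZMod ℓ) ℤ) -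
    (2 : ℤ) • Matrix.of (fun _ _ => (1 : ℤ))

/-- The signs `(1, ..., 1 | 1, ..., 1)` for `i = 0` and `(1, ..., 1 | -1, ..., -1)` for `i = 1`. -/
def border {ℓ : ℕ} (i : Fin 2) : ZMod ℓ ⊕ ZMod ℓ → ℤ :=
  Sum.elim (fun _ => 1) (fun _ => if i = 0 then 1 else -1)

/-- The matrix `H(A, B)` of order `2 ℓ + 2`: the block rows are
`(-1, -1, jᵀ, jᵀ)`, `(-1, 1, jᵀ, -jᵀ)`, `(j, j, A, B)`, `(j, -j, Bᵀ, -Aᵀ)`. -/
def coreMatrix {ℓ : ℕ} (A B : Matrix (ZMod ℓ) (ZMod ℓ) ℤ) :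
    Matrix (Fin 2 ⊕ (ZMod ℓ ⊕ ZMod ℓ)) (Fin 2 ⊕ (ZMod ℓ ⊕ ZMod ℓ)) ℤ :=
  Matrix.fromBlocks !![-1, -1; -1, 1] (Matrix.of fun i x => border i x)
    (Matrix.of fun x i => border i x) (Matrix.fromBlocks A B Bᵀ (-Aᵀ))

/-! ### The invariant -/

/-- the number of triples of rows which have generalised inner product `± t` with row `i` -/
noncomputable def prof {ι : Type} [Fintype ι] (t : ℕ) (H : Matrix ι ι ℤ) (i : ι) : ℕ :=
  Nat.card {p : ι × ι × ι // (∑ c, H i c * H p.1 c * H p.2.1 c * H p.2.2 c).natAbs = t}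

theorem unit_sq (u : ℤˣ) : (u : ℤ) * (u : ℤ) = 1 := by
  rcases Int.units_eq_one_or u with h | h <;> rw [h] <;> norm_num

theorem natAbs_unit (u : ℤˣ) (a : ℤ) : ((u : ℤ) * a).natAbs = a.natAbs := by
  rcases Int.units_eq_one_or u with h | h <;> rw [h] <;> simp

theorem prof_equiv {ι κ : Type} [Fintype ι] [Fintype κ] (t : ℕ) {H : Matrix ι ι ℤ}
    {K : Matrix κ κ ℤ} {σ τ : ι ≃ κ} {r c : ι → ℤˣ}
    (h : ∀ i j, H i j = (r i : ℤ) * (c j : ℤ) * K (σ i) (τ j)) (i : ι) :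
    prof t H i = prof t K (σ i) := by
  unfold prof
  refine Nat.card_congr (Equiv.subtypeEquiv (σ.prodCongr (σ.prodCongr σ)) ?_)
  rintro ⟨j, k, l⟩
  have h1 : ∑ x, H i x * H j x * H k x * H l x = ((r i * r j * r k * r l : ℤˣ) : ℤ) *
      ∑ y, K (σ i) y * K (σ j) y * K (σ k) y * K (σ l) y := by
    rw [← Equiv.sum_comp τ, mul_sum]
    refine sum_congr rfl (fun x _ => ?_)
    rw [h i, h j, h k, h l]
    push_cast
    have := unit_sq (c x)
    linear_combination ((r i : ℤ) * r j * r k * r l * K (σ i) (τ x) * K (σ j) (τ x) * K (σ k) (τ x) *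
      K (σ l) (τ x)) * ((c x : ℤ) * (c x : ℤ) + 1) * this
  simp only [Equiv.prodCongr_apply, Prod.map]
  rw [h1, natAbs_unit]

theorem prof_cocycle {G : Type} [Group G] [Fintype G] (t : ℕ) {ψ : G → G → ℤˣ}
    (hψ : IsCocycle ψ) (h : G) :
    prof t (cocMatrix ψ) h = prof t (cocMatrix ψ) 1 := by
  symm
  unfold prof cocMatrix
  let R : G ≃ G := Equiv.mulRight h
  refine Nat.card_congr (Equiv.subtypeEquiv (R.prodCongr (R.prodCongr R)) ?_)
  rintro ⟨x, y, z⟩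
  have key : ∀ g k, ((ψ (g * h) k : ℤˣ) : ℤ) =
      ((ψ g h : ℤˣ) : ℤ) * ((ψ h k : ℤˣ) : ℤ) * ((ψ g (h * k) : ℤˣ) : ℤ) := by
    intro g k
    have h1 := congrArg (fun u : ℤˣ => (u : ℤ)) (hψ g h k)
    simp only [Units.val_mul] at h1
    have h2 := unit_sq (ψ g h)
    linear_combination (-((ψ (g * h) k : ℤˣ) : ℤ)) * h2 + ((ψ g h : ℤˣ) : ℤ) * h1
  have h1 : ∑ k, ((ψ h k : ℤˣ) : ℤ) * ((ψ (x * h) k : ℤˣ) : ℤ) * ((ψ (y * h) k : ℤˣ) : ℤ) *
      ((ψ (z * h) k : ℤˣ) : ℤ) = ((ψ 1 h * ψ x h * ψ y h * ψ z h : ℤˣ) : ℤ) *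
      ∑ k, ((ψ 1 k : ℤˣ) : ℤ) * ((ψ x k : ℤˣ) : ℤ) * ((ψ y k : ℤˣ) : ℤ) * ((ψ z k : ℤˣ) : ℤ) := by
    rw [← Equiv.sum_comp (Equiv.mulLeft h) (fun k => ((ψ 1 k : ℤˣ) : ℤ) * ((ψ x k : ℤˣ) : ℤ) *
      ((ψ y k : ℤˣ) : ℤ) * ((ψ z k : ℤˣ) : ℤ)), mul_sum]
    refine sum_congr rfl (fun k _ => ?_)
    have e1 := key 1 k
    rw [one_mul] at e1
    have hh : ((ψ h k : ℤˣ) : ℤ) = ((ψ 1 h : ℤˣ) : ℤ) * ((ψ h k : ℤˣ) : ℤ) *
      ((ψ 1 (h * k) : ℤˣ) : ℤ) := e1
    have hs := unit_sq (ψ h k)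
    rw [key x, key y, key z]
    simp only [Equiv.coe_mulLeft]
    push_cast
    calc ((ψ h k : ℤˣ) : ℤ) * (((ψ x h : ℤˣ) : ℤ) * ((ψ h k : ℤˣ) : ℤ) * ((ψ x (h * k) : ℤˣ) : ℤ)) *
          (((ψ y h : ℤˣ) : ℤ) * ((ψ h k : ℤˣ) : ℤ) * ((ψ y (h * k) : ℤˣ) : ℤ)) *
          (((ψ z h : ℤˣ) : ℤ) * ((ψ h k : ℤˣ) : ℤ) * ((ψ z (h * k) : ℤˣ) : ℤ))
        = (((ψ 1 h : ℤˣ) : ℤ) * ((ψ h k : ℤˣ) : ℤ) * ((ψ 1 (h * k) : ℤˣ) : ℤ)) *
          (((ψ x h : ℤˣ) : ℤ) * ((ψ h k : ℤˣ) : ℤ) * ((ψ x (h * k) : ℤˣ) : ℤ)) *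
          (((ψ y h : ℤˣ) : ℤ) * ((ψ h k : ℤˣ) : ℤ) * ((ψ y (h * k) : ℤˣ) : ℤ)) *
          (((ψ z h : ℤˣ) : ℤ) * ((ψ h k : ℤˣ) : ℤ) * ((ψ z (h * k) : ℤˣ) : ℤ)) := by rw [← hh]
      _ = _ := by
        linear_combination (((ψ 1 h : ℤˣ) : ℤ) * ((ψ 1 (h * k) : ℤˣ) : ℤ) * ((ψ x h : ℤˣ) : ℤ) *
          ((ψ x (h * k) : ℤˣ) : ℤ) * ((ψ y h : ℤˣ) : ℤ) * ((ψ y (h * k) : ℤˣ) : ℤ) *
          ((ψ z h : ℤˣ) : ℤ) * ((ψ z (h * k) : ℤˣ) : ℤ)) *
          (((ψ h k : ℤˣ) : ℤ) * ((ψ h k : ℤˣ) : ℤ) + 1) * hs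
  simp only [Equiv.prodCongr_apply, Prod.map, R, Equiv.coe_mulRight]
  rw [h1, natAbs_unit]

/-- The invariant does not depend on the row for a cocyclic matrix. -/
theorem prof_const {ι : Type} [Fintype ι] (t : ℕ) {H : Matrix ι ι ℤ} (hH : IsCocyclic H)
    (i j : ι) : prof t H i = prof t H j := by
  obtain ⟨G, hG, hfin, ψ, hψ, σ, τ, r, c, h⟩ := hH
  have := Fintype.ofFinite G
  rw [prof_equiv t h i, prof_equiv t h j, prof_cocycle t hψ (σ i), prof_cocycle t hψ (σ j)]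

/-! ### Bit rows -/

/-- the number of ones among the last `n` binary digits -/
def pop : ℕ → ℕ → ℕ
  | 0, _ => 0
  | n + 1, x => x % 2 + pop n (x / 2)

theorem sum_testBit (n x : ℕ) :
    ∑ c : Fin n, (if x.testBit (c : ℕ) then (-1 : ℤ) else 1) = n - 2 * pop n x := by
  induction n generalizing x with
  | zero => simp [pop]
  | succ n ih =>
    rw [Fin.sum_univ_succ]
    have h1 : ∀ c : Fin n, (if x.testBit ((c.succ : Fin (n + 1)) : ℕ) then (-1 : ℤ) else 1) =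
        (if (x / 2).testBit (c : ℕ) then (-1 : ℤ) else 1) := by
      intro c
      rw [Fin.val_succ, Nat.testBit_succ]
    rw [sum_congr rfl (fun c _ => h1 c), ih (x / 2)]
    simp only [Fin.val_zero, Nat.testBit_zero, pop, decide_eq_true_eq]
    rcases Nat.mod_two_eq_zero_or_one x with h | h <;> rw [h] <;> push_cast <;> norm_num <;> ring

/-- the sign with exponent the `c`-th binary digit of `x` -/
def sg (x : ℕ) (c : ℕ) : ℤ := if x.testBit c then -1 else 1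

theorem sg_mul (x y c : ℕ) : sg x c * sg y c = sg (x ^^^ y) c := by
  unfold sg
  rw [Nat.testBit_xor]
  cases x.testBit c <;> cases y.testBit c <;> simp

/-! ### The example -/

/-- the first row of `A` -/
def a (k : ZMod 13) : ℤ :=
  ([-1, -1, 1, 1, -1, 1, -1, -1, 1, -1, 1, 1, 1] : List ℤ).getD k.val 0
/-- the first row of `B` -/
def b (k : ZMod 13) : ℤ :=
  ([-1, -1, -1, -1, 1, -1, 1, 1, 1, -1, 1, 1, 1] : List ℤ).getD k.val 0
/-- the matrix `A` -/
def A : Matrix (ZMod 13) (ZMod 13) ℤ := fun i j => a (j - i)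
/-- the matrix `B` -/
def B : Matrix (ZMod 13) (ZMod 13) ℤ := fun i j => b (j - i)

/-- the rows of `H(A, B)` as binary numbers -/
def R (i : Fin 28) : ℕ :=
  ([3, 268402689, 18320204, 36640408, 73280816, 146561632, 24687812, 49375624, 98718484, 197404204,
    126405720, 252778676, 237154664, 205906640, 143377828, 110588998, 221145230, 173855006, 79274558,
    158549114, 48662774, 97325546, 194651090, 120899490, 241766214, 215129738, 161856786,
    55310882] : List ℕ).getD i 0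

/-- the numbering of the index set -/
def e : Fin 28 ≃ Fin 2 ⊕ ZMod 13 ⊕ ZMod 13 :=
  (finSumFinEquiv (m := 2) (n := 26)).symm.trans
    (Equiv.sumCongr (Equiv.refl _) (finSumFinEquiv (m := 13) (n := 13)).symm)

theorem entries : ∀ i j : Fin 28, coreMatrix A B (e i) (e j) = sg (R i) j := by decide +kernel

theorem gram_dec : ∀ i k : Fin 28, ((28 : ℤ) - 2 * pop 28 (R i ^^^ R k)) =
    if i = k then 28 else 0 := by decide +kernel

theorem pair_dec : ∀ i k : ZMod 13, (∑ j, A i j * A k j + ∑ j, B i j * B k j : ℤ) =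
    if i = k then 26 else -2 := by decide +kernel

theorem a_sign : ∀ i : ZMod 13, a i = 1 ∨ a i = -1 := by decide +kernel

theorem b_sign : ∀ i : ZMod 13, b i = 1 ∨ b i = -1 := by decide +kernel

theorem four_dec (i j k l : Fin 28) :
    ∑ c, coreMatrix A B (e i) c * coreMatrix A B (e j) c * coreMatrix A B (e k) c *
      coreMatrix A B (e l) c = 28 - 2 * pop 28 (R i ^^^ R j ^^^ R k ^^^ R l) := by
  rw [← Equiv.sum_comp e]
  have h : ∀ c : Fin 28, coreMatrix A B (e i) (e c) * coreMatrix A B (e j) (e c) *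
      coreMatrix A B (e k) (e c) * coreMatrix A B (e l) (e c) =
      (if (R i ^^^ R j ^^^ R k ^^^ R l).testBit (c : ℕ) then (-1 : ℤ) else 1) := by
    intro c
    rw [entries, entries, entries, entries, sg_mul, sg_mul, sg_mul]
    rfl
  rw [sum_congr rfl (fun c _ => h c), sum_testBit, Nat.cast_ofNat]

/-- the count for the rows of the example -/
def cnt (i : Fin 28) : ℕ :=
  ∑ j : Fin 28, ∑ k : Fin 28, ∑ l : Fin 28,
    if pop 28 (R i ^^^ R j ^^^ R k ^^^ R l) = 4 ∨ pop 28 (R i ^^^ R j ^^^ R k ^^^ R l) = 24 then 1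
    else 0

theorem prof_eq (i : Fin 28) : prof 20 (coreMatrix A B) (e i) = cnt i := by
  unfold prof cnt
  have h1 : Nat.card {p : (Fin 2 ⊕ ZMod 13 ⊕ ZMod 13) × (Fin 2 ⊕ ZMod 13 ⊕ ZMod 13) ×
      (Fin 2 ⊕ ZMod 13 ⊕ ZMod 13) // (∑ c, coreMatrix A B (e i) c * coreMatrix A B p.1 c *
        coreMatrix A B p.2.1 c * coreMatrix A B p.2.2 c).natAbs = 20} =
      Nat.card {p : Fin 28 × Fin 28 × Fin 28 //
        pop 28 (R i ^^^ R p.1 ^^^ R p.2.1 ^^^ R p.2.2) = 4 ∨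
        pop 28 (R i ^^^ R p.1 ^^^ R p.2.1 ^^^ R p.2.2) = 24} := by
    refine (Nat.card_congr (Equiv.subtypeEquiv (e.prodCongr (e.prodCongr e)) ?_)).symm
    rintro ⟨j, k, l⟩
    show (pop 28 (R i ^^^ R j ^^^ R k ^^^ R l) = 4 ∨ pop 28 (R i ^^^ R j ^^^ R k ^^^ R l) = 24) ↔
      (∑ c, coreMatrix A B (e i) c * coreMatrix A B (e j) c * coreMatrix A B (e k) c *
        coreMatrix A B (e l) c).natAbs = 20
    rw [four_dec]
    generalize pop 28 (R i ^^^ R j ^^^ R k ^^^ R l) = x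
    omega
  rw [h1, Nat.card_eq_fintype_card, Fintype.card_subtype, card_filter]
  rw [Fintype.sum_prod_type]
  refine sum_congr rfl (fun j _ => ?_)
  rw [Fintype.sum_prod_type]

theorem cnt_zero : cnt 0 = 78 := by decide +kernel

theorem cnt_two : cnt 2 = 54 := by decide +kernel

/-- **A Hadamard matrix with two circulant cores which is not cocyclic** (`ℓ = 13`, order 28). -/
theorem result : ∃ A B : Matrix (ZMod 13) (ZMod 13) ℤ,
    IsPair 13 A B ∧ IsHadamard (coreMatrix A B) ∧ ¬ IsCocyclic (coreMatrix A B) := by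
  refine ⟨A, B, ⟨by decide, ?_, ?_, ?_, ?_, ?_⟩, ⟨?_, ?_⟩, ?_⟩
  · exact fun i j => a_sign (j - i)
  · exact fun i j => b_sign (j - i)
  · intro i j
    show a (j + 1 - (i + 1)) = a (j - i)
    rw [add_sub_add_right_eq_sub]
  · intro i j
    show b (j + 1 - (i + 1)) = b (j - i)
    rw [add_sub_add_right_eq_sub]
  · ext i k
    rw [Matrix.add_apply, Matrix.mul_apply, Matrix.mul_apply]
    simp only [Matrix.transpose_apply]
    rw [pair_dec, Matrix.sub_apply, Matrix.smul_apply, Matrix.smul_apply, Matrix.of_apply,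
      Matrix.one_apply]
    by_cases hik : i = k
    · rw [if_pos hik, if_pos hik]
      norm_num
    · rw [if_neg hik, if_neg hik]
      norm_num
  · intro i j
    obtain ⟨i, rfl⟩ := e.surjective i
    obtain ⟨j, rfl⟩ := e.surjective j
    rw [entries]
    unfold sg
    split_ifs <;> simp
  · ext i k
    obtain ⟨i, rfl⟩ := e.surjective i
    obtain ⟨k, rfl⟩ := e.surjective k
    rw [Matrix.mul_apply, ← Equiv.sum_comp e]
    have h : ∀ c : Fin 28, coreMatrix A B (e i) (e c) * (coreMatrix A B)ᵀ (e c) (e k) =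
        (if (R i ^^^ R k).testBit (c : ℕ) then (-1 : ℤ) else 1) := by
      intro c
      rw [Matrix.transpose_apply, entries, entries, sg_mul]
      rfl
    rw [sum_congr rfl (fun c _ => h c), sum_testBit]
    have h2 := gram_dec i k
    have hc : Fintype.card (Fin 2 ⊕ ZMod 13 ⊕ ZMod 13) = 28 := by decide
    rw [hc]
    push_cast
    rw [h2]
    by_cases hik : i = k
    · subst hik
      simp
    · simp [hik]
  · intro h
    have h1 := prof_const 20 h (e 0) (e 2)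
    rw [prof_eq, prof_eq, cnt_zero, cnt_two] at h1
    norm_num at h1

end Pool.Agent.Results.MP_e1608d_co.NotCocyclic28
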